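import Mathlib
import Pool.Agent.V11185.PGrpG

set_option autoImplicit false

namespace Pool.Agent.Results.MP_f78dbe_co.AllMultiples

open Filter Topology

/-- The finite sets `A i` (`i ∈ I`) of positive integers pack into `[m] = {1, ..., m}`: there are
integers `s i` such that all the translates `s i + A i` lie in `{1, ..., m}` and are pairwise
disjoint. -/
def PacksInto {ι : Type*} (I : Finset ι) (A : ι → Finset ℕ) (m : ℕ) : Prop :=
  ∃ s : ι → ℤ, (∀ i ∈ I, ∀ a ∈ A i, 1 ≤ s i + (a : ℤ) ∧ s i + (a : ℤ) ≤ (m : ℤ)) ∧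
    ∀ i ∈ I, ∀ j ∈ I, i ≠ j → ∀ a ∈ A i, ∀ b ∈ A j, s i + (a : ℤ) ≠ s j + (b : ℤ)

/-- The positive multiples of `d` that are at most `n`: `A_d = {d, 2d, ..., ⌊n / d⌋ d}`. -/
def A (n d : ℕ) : Finset ℕ := (Finset.Icc 1 (n / d)).image (fun j => j * d)

/-- `m(n)`: the least `m` such that `A_1, ..., A_n` pack into `[m]`. -/
noncomputable def M (n : ℕ) : ℕ := sInf {m : ℕ | PacksInto (Finset.Icc 1 n) (A n) m}

/-- `M n` is really the least `m` for which the family packs into `[m]`, and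
`M n ~ (4 / 3) * n ^ (3 / 2) / log n`. -/
theorem result :
    (∀ n : ℕ, IsLeast {m : ℕ | PacksInto (Finset.Icc 1 n) (A n) m} (M n)) ∧
    Tendsto (fun n : ℕ => (M n : ℝ) / ((4 / 3) * ((n : ℝ) ^ (3 / 2 : ℝ) / Real.log n)))
      atTop (𝓝 1) := by
  have h : ∀ n : ℕ, IsLeast {m : ℕ | PacksInto (Finset.Icc 1 n) (A n) m} (M n) := fun n =>
    Pool.Agent.V11185.PPack.isLeast_sInf (P := Finset.Icc 1 n) (N := fun p => n / p)
      (fun p hp => (Finset.mem_Icc.1 hp).1)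
  refine ⟨h, ?_⟩
  have h1 := (Pool.Agent.V11185.PGrp.all_lengths h).const_mul (3 / 4 : ℝ)
  have e : (3 / 4 : ℝ) * (4 / 3) = 1 := by norm_num
  rw [e] at h1
  refine h1.congr fun n => ?_
  simp only [div_eq_mul_inv, mul_inv, inv_inv]
  ring

end Pool.Agent.Results.MP_f78dbe_co.AllMultiples
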